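import Pool.Agent.Q93.HK.Final

/-!
MP_613bd6_al, Q1: the element `X^μ_N` is central in `e_μ H(S_n) e_μ`.

The definitions (`Hecke`, `gen`, `len`, `Tp`, `young`, `eμ`, `Tγ`, `antisym`, `Xμ`) are in
`Pool/Agent/Q93/HK/Basic.lean` and `Pool/Agent/Q93/HK/Def.lean`.
-/

set_option autoImplicit false

namespace Pool.Agent.Results.MP_613bd6_al.CentralX

open Q93HK

/-- For all `N ≥ 1` and all positive `μ_1, …, μ_{N+1}` with sum `n = m + 1`: `T_{γ_μ}` is invertible and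
`X^μ_N` commutes with every element `e_μ h e_μ` of `H^μ(S_n)`. -/
theorem result : ∀ (m N : ℕ) (μ : Fin (N + 1) → ℕ), 1 ≤ N → (∀ k, 0 < μ k) → ∑ k, μ k = m + 1 →
    IsUnit (Tγ m μ) ∧ ∀ h : Hecke m,
      Xμ m μ * (eμ m μ * h * eμ m μ) = (eμ m μ * h * eμ m μ) * Xμ m μ :=
  fun _ _ _ _ hμ hsum => main hμ hsum

end Pool.Agent.Results.MP_613bd6_al.CentralX
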